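import Pool.Agent.J4.H48.AW.Main

set_option autoImplicit false
set_option linter.unusedSectionVars false

/-!
Almost all weightings have a circuit cover: the final forms.
-/

namespace Pool.Agent.J4.H48.AW

open Finset
open Pool.Agent.H126R2.CDC (MGraph)
open Pool.Agent.H126R2.NC (InCone InLat InIntCone)
open Pool.Agent.J4.H7.CC (bd one_le_bd)

variable {V E : Type} [Fintype V] [DecidableEq V] [Fintype E] [DecidableEq E]

open Classical in
theorem bad_le (G : MGraph V E) {D : ℕ} (hD : 0 < D) (hD2 : Even D) (z M : E → ℕ) (m : ℕ)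
    (hM : ∀ e, m ≤ M e) :
    (((weights G D z M).filter (fun p => ¬ InIntCone G p)).card : ℝ) * m ≤
      2000000000 * Fintype.card E * (bd (Fintype.card V) (Fintype.card E) + D) *
        (weights G D z M).card := by
  by_cases hE : IsEmpty E
  · have h1 : ((weights G D z M).filter (fun p => ¬ InIntCone G p)) = ∅ := by
      apply Finset.filter_false_of_mem
      intro p _ h
      exact h ⟨0, by simp, fun e => (hE.false e).elim⟩
    rw [h1]
    simp
  rw [not_isEmpty_iff] at hE
  have hn : 1 ≤ Fintype.card E := Fintype.card_pos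
  obtain ⟨v, hv⟩ := G.exists_halves
  obtain ⟨e0⟩ := hE
  have hV : 1 ≤ Fintype.card V := Fintype.card_pos_iff.2 ⟨v (e0, false)⟩
  have hb := one_le_bd (Fintype.card V) (Fintype.card E) hV
  have hnr : (1 : ℝ) ≤ Fintype.card E := by exact_mod_cast hn
  obtain ⟨d, hd⟩ : ∃ d, d = bd (Fintype.card V) (Fintype.card E) := ⟨_, rfl⟩
  obtain ⟨n, hn'⟩ : ∃ n, n = Fintype.card E := ⟨_, rfl⟩
  have hD0 : (0 : ℝ) < D := by exact_mod_cast hD
  obtain ⟨l, hl⟩ : ∃ l, l = ⌈1200000000 * d / D⌉₊ := ⟨_, rfl⟩
  rw [← hd] at hb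
  have hl1 : 1200000000 * d ≤ D * l := by
    have h1 : 1200000000 * d / D ≤ l := by rw [hl]; exact Nat.le_ceil _
    rw [div_le_iff₀ hD0] at h1
    linarith
  have hl2 : (D : ℝ) * l ≤ 1200000000 * d + D := by
    have h1 : (l : ℝ) ≤ 1200000000 * d / D + 1 := by
      rw [hl]
      exact (Nat.ceil_lt_add_one (by positivity)).le
    have h2 := mul_le_mul_of_nonneg_left h1 hD0.le
    have h3 : (D : ℝ) * (1200000000 * d / D + 1) = 1200000000 * d + D := by field_simp
    linarith
  have hsplit := Finset.card_filter_add_card_filter_not (s := weights G D z M)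
    (p := fun p => InIntCone G p)
  have hsplit' : (((weights G D z M).filter (fun p => InIntCone G p)).card : ℝ) +
      ((weights G D z M).filter (fun p => ¬ InIntCone G p)).card = (weights G D z M).card := by
    exact_mod_cast hsplit
  obtain ⟨g, hg⟩ : ∃ g : ℝ, g = (((weights G D z M).filter (fun p => InIntCone G p)).card : ℝ) :=
    ⟨_, rfl⟩
  obtain ⟨b, hb'⟩ : ∃ b : ℝ,
    b = (((weights G D z M).filter (fun p => ¬ InIntCone G p)).card : ℝ) := ⟨_, rfl⟩
  obtain ⟨w, hw⟩ : ∃ w : ℝ, w = ((weights G D z M).card : ℝ) := ⟨_, rfl⟩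
  have hg0 : 0 ≤ g := by rw [hg]; positivity
  have hb0 : 0 ≤ b := by rw [hb']; positivity
  have hw0 : 0 ≤ w := by rw [hw]; positivity
  have hbw : b ≤ w := by rw [← hg, ← hb', ← hw] at hsplit'; linarith
  have hm0 : (0 : ℝ) ≤ m := Nat.cast_nonneg m
  have hl0 : (0 : ℝ) ≤ l := Nat.cast_nonneg l
  rw [← hb', ← hw, ← hd, ← hn']
  rw [← hn'] at hnr
  rcases Nat.lt_or_ge (D * (l + 2)) m with hm | hm
  · have h1 := ratio G hD hD2 z M m l (by rw [← hd]; exact hl1) hM hm
    rw [← hg, ← hw, ← hn'] at h1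
    have hmr : (D : ℝ) * (l + 2) < m := by exact_mod_cast hm
    have hs : (0 : ℝ) < m + 2 * D := by linarith
    have h2 : 1 + (n : ℝ) * (-(D * (l + 4)) / (m + 2 * D)) ≤
        (1 + (-(D * (l + 4)) / (m + 2 * D))) ^ n := by
      apply one_add_mul_le_pow
      rw [le_div_iff₀ hs]
      linarith
    have h3 : 1 + (-((D : ℝ) * ((l : ℝ) + 4)) / (m + 2 * D)) =
        (m - D * (l + 2)) / (m + 2 * D) := by
      field_simp
      ring
    rw [h3] at h2
    have h4 := (mul_le_mul_of_nonneg_right h2 hw0).trans h1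
    have h5 : b = w - g := by rw [← hg, ← hb', ← hw] at hsplit'; linarith
    have h6 : b ≤ n * ((D * (l + 4)) / (m + 2 * D)) * w := by
      rw [h5]
      have h7 : (1 + (n : ℝ) * (-(D * (l + 4)) / (m + 2 * D))) * w =
          w - n * ((D * (l + 4)) / (m + 2 * D)) * w := by ring
      linarith
    have h8 : ((D : ℝ) * ((l : ℝ) + 4)) / (m + 2 * D) * m ≤ D * (l + 4) := by
      rw [div_mul_eq_mul_div, div_le_iff₀ hs]
      have : 0 ≤ (D : ℝ) * (l + 4) := by positivity
      nlinarith
    calc b * m ≤ n * ((D * (l + 4)) / (m + 2 * D)) * w * m := mul_le_mul_of_nonneg_right h6 hm0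
      _ = n * w * ((D * (l + 4)) / (m + 2 * D) * m) := by ring
      _ ≤ n * w * (D * (l + 4)) := mul_le_mul_of_nonneg_left h8 (by positivity)
      _ ≤ n * w * (2000000000 * (d + D)) := by
          apply mul_le_mul_of_nonneg_left _ (by positivity)
          linarith
      _ = _ := by ring
  · have hmr : (m : ℝ) ≤ D * (l + 2) := by exact_mod_cast hm
    calc b * m ≤ w * (D * (l + 2)) := mul_le_mul hbw hmr hm0 hw0
      _ ≤ w * (2000000000 * (d + D)) := mul_le_mul_of_nonneg_left (by linarith) hw0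
      _ ≤ n * (w * (2000000000 * (d + D))) := by
          have : 0 ≤ w * (2000000000 * (d + D)) := mul_nonneg hw0 (by linarith)
          nlinarith
      _ = _ := by ring

open Classical in
/-- the same for all moduli -/
theorem bad_le_all (G : MGraph V E) {D : ℕ} (hD : 0 < D) (z M : E → ℕ) (m : ℕ)
    (hM : ∀ e, m ≤ M e) :
    (((weights G D z M).filter (fun p => ¬ InIntCone G p)).card : ℝ) * m ≤
      4000000000 * Fintype.card E * (bd (Fintype.card V) (Fintype.card E) + D) *
        (weights G D z M).card := by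
  obtain ⟨Z, hZ⟩ : ∃ Z : Finset (E → ℕ), Z = (Fintype.piFinset fun _ : E =>
    Finset.range (2 * D)).filter (fun z' => ∀ e, z' e % D = z e % D) := ⟨_, rfl⟩
  have h2D : 0 < 2 * D := by omega
  have hmm : ∀ a : ℕ, a % (2 * D) % D = a % D := fun a => Nat.mod_mod_of_dvd a (Dvd.intro_left 2 rfl)
  have hmap : ∀ p ∈ weights G D z M, (fun e => p e % (2 * D)) ∈ Z := by
    intro p hp
    rw [hZ, Finset.mem_filter, Fintype.mem_piFinset]
    refine ⟨fun e => Finset.mem_range.2 (Nat.mod_lt _ h2D), fun e => ?_⟩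
    show p e % (2 * D) % D = z e % D
    rw [hmm]
    exact ((mem_weights G D z M p).1 hp).2.1 e
  have hZ2 : ∀ z' ∈ Z, (∀ e, z' e % (2 * D) = z' e) ∧ ∀ e, z' e % D = z e % D := by
    intro z' hz'
    rw [hZ, Finset.mem_filter, Fintype.mem_piFinset] at hz'
    exact ⟨fun e => Nat.mod_eq_of_lt (Finset.mem_range.1 (hz'.1 e)), hz'.2⟩
  have h1 : ∀ z' ∈ Z, (weights G D z M).filter (fun p => (fun e => p e % (2 * D)) = z') =
      weights G (2 * D) z' M := by
    intro z' hz'
    obtain ⟨c1, c2⟩ := hZ2 z' hz'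
    ext p
    rw [Finset.mem_filter, mem_weights, mem_weights]
    constructor
    · rintro ⟨⟨a1, a2, a3, a4⟩, a5⟩
      refine ⟨a1, fun e => ?_, a3, a4⟩
      rw [c1 e]
      exact congrFun a5 e
    · rintro ⟨a1, a2, a3, a4⟩
      refine ⟨⟨a1, fun e => ?_, a3, a4⟩, ?_⟩
      · rw [← hmm (p e), a2 e, c1 e, c2 e]
      · ext e
        rw [a2 e, c1 e]
  have h2 : (weights G D z M).card = ∑ z' ∈ Z, (weights G (2 * D) z' M).card := by
    rw [Finset.card_eq_sum_card_fiberwise (f := fun (p : E → ℕ) (e : E) => p e % (2 * D)) (t := Z)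
      hmap]
    exact Finset.sum_congr rfl fun z' hz' => by rw [h1 z' hz']
  have h3 : ((weights G D z M).filter (fun p => ¬ InIntCone G p)).card =
      ∑ z' ∈ Z, ((weights G (2 * D) z' M).filter (fun p => ¬ InIntCone G p)).card := by
    rw [Finset.card_eq_sum_card_fiberwise (f := fun (p : E → ℕ) (e : E) => p e % (2 * D)) (t := Z)
      (fun p hp => hmap p (Finset.mem_of_mem_filter p hp))]
    apply Finset.sum_congr rfl
    intro z' hz'
    rw [← h1 z' hz', Finset.filter_filter, Finset.filter_filter]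
    congr 1
    apply Finset.filter_congr
    intro p _
    exact and_comm
  have h4 : (((weights G D z M).filter (fun p => ¬ InIntCone G p)).card : ℝ) * m ≤
      2000000000 * Fintype.card E * (bd (Fintype.card V) (Fintype.card E) + (2 * D : ℕ)) *
        (weights G D z M).card := by
    rw [h2, h3]
    push_cast
    rw [Finset.sum_mul, Finset.mul_sum]
    refine Finset.sum_le_sum fun z' _ => ?_
    have h5 := bad_le G (D := 2 * D) h2D (even_two_mul D) z' M m hM
    push_cast at h5
    exact h5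
  by_cases hE : IsEmpty E
  · have h6 : Fintype.card E = 0 := Fintype.card_eq_zero
    rw [h6] at h4 ⊢
    simpa using h4
  rw [not_isEmpty_iff] at hE
  obtain ⟨v, hv⟩ := G.exists_halves
  obtain ⟨e0⟩ := hE
  have hV : 1 ≤ Fintype.card V := Fintype.card_pos_iff.2 ⟨v (e0, false)⟩
  have hb := one_le_bd (Fintype.card V) (Fintype.card E) hV
  refine h4.trans ?_
  apply mul_le_mul_of_nonneg_right _ (Nat.cast_nonneg _)
  have h7 : (0 : ℝ) ≤ Fintype.card E := Nat.cast_nonneg _
  have h8 : 2000000000 * (bd (Fintype.card V) (Fintype.card E) + ((2 * D : ℕ) : ℝ)) ≤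
      4000000000 * (bd (Fintype.card V) (Fintype.card E) + D) := by
    push_cast
    linarith
  calc 2000000000 * (Fintype.card E : ℝ) * (bd (Fintype.card V) (Fintype.card E) + ((2 * D : ℕ) : ℝ))
      = Fintype.card E *
        (2000000000 * (bd (Fintype.card V) (Fintype.card E) + ((2 * D : ℕ) : ℝ))) := by ring
    _ ≤ Fintype.card E * (4000000000 * (bd (Fintype.card V) (Fintype.card E) + D)) :=
        mul_le_mul_of_nonneg_left h8 h7
    _ = _ := by ring

end Pool.Agent.J4.H48.AW
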