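import Mathlib

set_option autoImplicit false

/-!
Counting points of a shifted lattice `(D ℤ)^F` by volumes.
-/

namespace Pool.Agent.J4.H48.AW

open MeasureTheory
open scoped Pointwise

variable {F : Type} [Fintype F]

/-- half-open cube of side `D` -/
def cube (D : ℕ) (a : F → ℝ) : Set (F → ℝ) := Set.pi Set.univ fun c => Set.Ico (a c) (a c + D)

lemma vol_cube (D : ℕ) (a : F → ℝ) : volume (cube D a) = (D : ENNReal) ^ Fintype.card F := by
  unfold cube
  rw [Real.volume_pi_Ico]
  simp

lemma meas_cube (D : ℕ) (a : F → ℝ) : MeasurableSet (cube D a) :=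
  MeasurableSet.univ_pi fun _ => measurableSet_Ico

lemma packing {ι : Type} (D : ℕ) (W : Finset ι) (a : ι → F → ℝ) (X : Set (F → ℝ))
    (hdisj : ∀ i ∈ W, ∀ j ∈ W, i ≠ j → ∃ c, (D : ℝ) ≤ |a i c - a j c|)
    (hsub : ∀ i ∈ W, cube D (a i) ⊆ X) : (W.card : ENNReal) * (D : ENNReal) ^ Fintype.card F ≤ volume X := by
  have h1 : volume (⋃ i ∈ W, cube D (a i)) = ∑ i ∈ W, volume (cube D (a i)) := by
    apply measure_biUnion_finset
    · intro i hi j hj hij
      rw [Function.onFun, Set.disjoint_left]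
      intro y hy hy'
      obtain ⟨c, hc⟩ := hdisj i hi j hj hij
      have h2 := hy c (Set.mem_univ c)
      have h3 := hy' c (Set.mem_univ c)
      rw [Set.mem_Ico] at h2 h3
      have h4 : |a i c - a j c| < D := by
        rw [abs_lt]
        constructor <;> linarith [h2.1, h2.2, h3.1, h3.2]
      linarith
    · intro i _
      exact meas_cube _ _
  calc _ = ∑ i ∈ W, volume (cube D (a i)) := by simp [vol_cube]
    _ = volume (⋃ i ∈ W, cube D (a i)) := h1.symm
    _ ≤ volume X := measure_mono (Set.iUnion₂_subset hsub)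

lemma covering {ι : Type} (D : ℕ) (W : Finset ι) (a : ι → F → ℝ) (X : Set (F → ℝ))
    (hsub : X ⊆ ⋃ i ∈ W, cube D (a i)) : volume X ≤ (W.card : ENNReal) * (D : ENNReal) ^ Fintype.card F := by
  refine (measure_mono hsub).trans ((measure_biUnion_finset_le _ _).trans (le_of_eq ?_))
  simp [vol_cube]

/-- comparison of two numbers of lattice points -/
theorem count_ratio {ι : Type} {D : ℕ} (hD : 0 < D) (W Gd : Finset ι) (a b : ι → F → ℝ) (X Y : Set (F → ℝ)) {s t : ℝ}
    (hs : 0 < s) (ht : 0 < t) (hX : X ⊆ (s / t) • Y)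
    (hdisj : ∀ i ∈ W, ∀ j ∈ W, i ≠ j → ∃ c, (D : ℝ) ≤ |a i c - a j c|)
    (hsub : ∀ i ∈ W, cube D (a i) ⊆ X) (hcov : Y ⊆ ⋃ i ∈ Gd, cube D (b i)) :
    (t / s) ^ Fintype.card F * W.card ≤ Gd.card := by
  have h1 := packing D W a X hdisj hsub
  have h2 := covering D Gd b Y hcov
  have h3 : volume X ≤ ENNReal.ofReal ((s / t) ^ Fintype.card F) * volume Y := by
    refine (measure_mono hX).trans (le_of_eq ?_)
    rw [Measure.addHaar_smul, Module.finrank_fintype_fun_eq_card, abs_of_nonneg (by positivity)]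
  have h4 : (W.card : ENNReal) * (D : ENNReal) ^ Fintype.card F ≤
      (ENNReal.ofReal ((s / t) ^ Fintype.card F) * (Gd.card : ENNReal)) * (D : ENNReal) ^ Fintype.card F := by
    rw [mul_assoc]
    exact h1.trans (h3.trans (mul_le_mul_right h2 _))
  have h5 : (W.card : ENNReal) ≤ ENNReal.ofReal ((s / t) ^ Fintype.card F) * (Gd.card : ENNReal) :=
    (ENNReal.mul_le_mul_iff_left (pow_ne_zero _ (by
      rw [Ne, Nat.cast_eq_zero]; omega)) (ENNReal.pow_ne_top (ENNReal.natCast_ne_top D))).1 h4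
  have h6 : (W.card : ℝ) ≤ (s / t) ^ Fintype.card F * Gd.card := by
    have h7 : ENNReal.ofReal (W.card : ℝ) ≤ ENNReal.ofReal ((s / t) ^ Fintype.card F * Gd.card) := by
      rw [ENNReal.ofReal_mul (by positivity), ENNReal.ofReal_natCast, ENNReal.ofReal_natCast]
      exact h5
    exact (ENNReal.ofReal_le_ofReal_iff (by positivity)).1 h7
  calc (t / s) ^ Fintype.card F * W.card
      ≤ (t / s) ^ Fintype.card F * ((s / t) ^ Fintype.card F * Gd.card) :=
        mul_le_mul_of_nonneg_left h6 (by positivity)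
    _ = Gd.card := by
        rw [← mul_assoc, ← mul_pow]
        have : t / s * (s / t) = 1 := by field_simp
        rw [this, one_pow, one_mul]

end Pool.Agent.J4.H48.AW
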