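import Pool.Agent.J4.H7.CC.Len
import Pool.Agent.J4.H48.AW.Vol

set_option autoImplicit false
set_option linter.unusedSectionVars false

/-!
Almost all weightings in the cone and the lattice of the circuits of a graph have a circuit cover.
-/

namespace Pool.Agent.J4.H48.AW

open Finset
open scoped Pointwise
open Pool.Agent.H126R2.CDC (MGraph)
open Pool.Agent.H126R2.NC (TC InCone InLat InIntCone cone_lat_of_intCone)
open Pool.Agent.W831.ECC (tc_of_lat bridgeless_of_lat tc_of_two circuit_cut RCone rcone_of_cut
  cut_of_rcone)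
open Pool.Agent.W831.ECC.Gad (CutC Lv)
open Pool.Agent.J4.H7.CC (bd one_le_bd cover_len card_circuit_le)

variable {V E : Type} [Fintype V] [DecidableEq V] [Fintype E] [DecidableEq E]

/-- the classes of the edges (equal, or forming a cut) -/
def tcs (v : E × Bool → V) : Setoid E where
  r := TC (fun e => v (e, false)) (fun e => v (e, true))
  iseqv := ⟨fun e => TC.refl _ _ e, fun h => h.symm, fun h1 h2 => h1.trans h2⟩

abbrev Cls (v : E × Bool → V) : Type := Quotient (tcs v)

noncomputable instance (v : E × Bool → V) : Fintype (Cls v) := Fintype.ofFinite _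

lemma card_cls (v : E × Bool → V) : Fintype.card (Cls v) ≤ Fintype.card E :=
  Fintype.card_le_of_surjective (fun e => (Quotient.mk (tcs v) e)) Quotient.mk_surjective

/-- constant on the classes -/
def Const {α : Type} (v : E × Bool → V) (x : E → α) : Prop :=
  ∀ e f, TC (fun e => v (e, false)) (fun e => v (e, true)) e f → x e = x f

lemma rep_tc (v : E × Bool → V) (e : E) :
    TC (fun e => v (e, false)) (fun e => v (e, true)) (Quotient.out (Quotient.mk (tcs v) e)) e :=
  Quotient.mk_out (s := tcs v) e

lemma mk_const (v : E × Bool → V) {α : Type} (y : Cls v → α) :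
    Const v (fun e => y (Quotient.mk (tcs v) e)) := by
  intro e f h
  have : Quotient.mk (tcs v) e = Quotient.mk (tcs v) f := Quotient.sound h
  show y _ = y _
  rw [this]

/-- even vectors which are constant on the classes are in the lattice -/
lemma lat_even (G : MGraph V E) (hbr : G.Bridgeless) (v : E × Bool → V)
    (hv : ∀ e, G.ends e = s(v (e, false), v (e, true))) (y : E → ℤ) (hy : Const v y) :
    (fun e => 2 * y e) ∈ AddSubgroup.closure
      {x : E → ℤ | ∃ C, G.IsCircuit C ∧ x = fun e => if e ∈ C then 1 else 0} := by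
  obtain ⟨T, hT⟩ : ∃ T : ℕ, (T : ℤ) = 9 * ∑ e, |y e| + 24 :=
    ⟨(9 * ∑ e, |y e| + 24).toNat, Int.toNat_of_nonneg (by
      have : 0 ≤ ∑ e, |y e| := Finset.sum_nonneg fun _ _ => abs_nonneg _
      linarith)⟩
  have hb : ∀ e, |y e| ≤ ∑ e, |y e| := fun e =>
    Finset.single_le_sum (f := fun e => |y e|) (fun _ _ => abs_nonneg _) (Finset.mem_univ e)
  have hb1 : ∀ e, y e ≤ ∑ e, |y e| := fun e => (le_abs_self _).trans (hb e)
  have hb2 : ∀ e, - ∑ e, |y e| ≤ y e := fun e => by
    have := neg_abs_le (y e)
    have := hb e
    linarith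
  have hs0 : 0 ≤ ∑ e, |y e| := Finset.sum_nonneg fun _ _ => abs_nonneg _
  have hq : ∀ e, (((y e + T).toNat : ℕ) : ℤ) = y e + T := fun e =>
    Int.toNat_of_nonneg (by have := hb2 e; linarith)
  have h1 := Pool.Agent.TH399.CC.cover_even G hbr v hv (fun e => (y e + T).toNat) (by
      intro e f hef
      show (y e + T).toNat = (y f + T).toNat
      rw [hy e f hef]) (by
      intro e f
      have h2 := hq e
      have h3 := hq f
      have h4 := hb1 e
      have h5 := hb2 f
      show 4 * (y e + T).toNat + 24 ≤ 5 * (y f + T).toNat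
      zify
      rw [h2, h3]
      linarith)
  have h2 := Pool.Agent.TH399.CC.cover_even G hbr v hv (fun _ => T) (fun _ _ _ => rfl) (by
      intro e f
      have : (24 : ℤ) ≤ T := by linarith
      have : 24 ≤ T := by exact_mod_cast this
      omega)
  have h3 := (cone_lat_of_intCone G _ h1).2
  have h4 := (cone_lat_of_intCone G _ h2).2
  have h5 := AddSubgroup.sub_mem _ h3 h4
  convert h5 using 1
  ext e
  rw [Pi.sub_apply]
  push_cast
  rw [hq e]
  ring

lemma cut_shift (G : MGraph V E) (hbr : G.Bridgeless) (v : E × Bool → V)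
    (hv : ∀ e, G.ends e = s(v (e, false), v (e, true))) (x u : E → ℝ) {α β : ℝ} (hα : 0 ≤ α)
    (hβ : β ≤ 2 * α) (hx : CutC v x) (hu : Const v u) (hu1 : ∀ e, α ≤ u e) (hu2 : ∀ e, u e ≤ β) :
    CutC v (fun e => x e + u e) := by
  intro S e he
  obtain ⟨D, hD⟩ : ∃ D : Finset E, D = univ.filter (fun f => f ≠ e ∧ Lv v S f) := ⟨_, rfl⟩
  have h0 := hx S e he
  rw [← Finset.sum_filter, ← hD] at h0 ⊢
  rw [Finset.sum_add_distrib]
  have h3 : u e ≤ ∑ f ∈ D, u f := by
    rcases Nat.lt_or_ge D.card 2 with hk | hk
    · obtain ⟨C, hC, heC⟩ := hbr e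
      obtain ⟨f, hfC, hfe, hf⟩ := circuit_cut G v hv C hC S e heC he
      have hfD : f ∈ D := by rw [hD]; exact Finset.mem_filter.2 ⟨Finset.mem_univ _, hfe, hf⟩
      have hD1 : D.card = 1 := by
        have : 0 < D.card := Finset.card_pos.2 ⟨f, hfD⟩
        omega
      obtain ⟨g, hg⟩ := Finset.card_eq_one.1 hD1
      have hfg : f = g := by rw [hg] at hfD; exact Finset.mem_singleton.1 hfD
      subst hfg
      have htcef : TC (fun e => v (e, false)) (fun e => v (e, true)) e f := by
        apply tc_of_two v S e f hfe
        intro g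
        constructor
        · intro hgL
          by_cases hge : g = e
          · exact Or.inl hge
          · right
            have : g ∈ D := by rw [hD]; exact Finset.mem_filter.2 ⟨Finset.mem_univ _, hge, hgL⟩
            rw [hg] at this
            exact Finset.mem_singleton.1 this
        · rintro (hge | hgf)
          · rw [hge]; exact he
          · rw [hgf]; exact hf
      rw [hg, Finset.sum_singleton, hu e f htcef]
    · have h4 : (D.card : ℝ) * α ≤ ∑ f ∈ D, u f := by
        rw [← nsmul_eq_mul]
        exact Finset.card_nsmul_le_sum _ _ _ fun f _ => hu1 f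
      have h5 : (2 : ℝ) ≤ D.card := by exact_mod_cast hk
      have h6 := hu2 e
      nlinarith
  linarith

lemma cut_smul (v : E × Bool → V) (x : E → ℝ) {a : ℝ} (ha : 0 ≤ a) (hx : CutC v x) :
    CutC v (fun e => a * x e) := by
  intro S e he
  have h0 := mul_le_mul_of_nonneg_left (hx S e he) ha
  refine h0.trans (le_of_eq ?_)
  rw [Finset.mul_sum]
  apply Finset.sum_congr rfl
  intro f _
  split_ifs <;> simp

/-- the region -/
def Reg (v : E × Bool → V) (T : E → ℝ) : Set (Cls v → ℝ) :=
  {y | (∀ c, 0 ≤ y c) ∧ (∀ e, y (Quotient.mk (tcs v) e) ≤ T e) ∧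
    CutC v (fun e => y (Quotient.mk (tcs v) e))}

lemma reg_smul (v : E × Bool → V) {s t : ℝ} {S T : E → ℝ} (hs : 0 < s) (ht : 0 < t)
    (h : ∀ e, t * S e ≤ s * T e) : Reg v S ⊆ (s / t) • Reg v T := by
  intro y hy
  obtain ⟨h0, h1, h2⟩ := hy
  refine ⟨fun c => t / s * y c, ⟨fun c => mul_nonneg (by positivity) (h0 c), fun e => ?_, ?_⟩, ?_⟩
  · have h3 := mul_le_mul_of_nonneg_left (h1 e) (by positivity : 0 ≤ t / s)
    refine h3.trans ?_
    rw [div_mul_eq_mul_div, div_le_iff₀ hs]
    linarith [h e]
  · exact cut_smul v _ (by positivity) h2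
  · ext c
    show s / t * (t / s * y c) = y c
    field_simp

open Classical in
/-- the weightings `p ≡ z (mod D)`, `1 ≤ p ≤ M`, in the cone and the lattice of the circuits -/
noncomputable def weights (G : MGraph V E) (D : ℕ) (z M : E → ℕ) : Finset (E → ℕ) :=
  (Fintype.piFinset fun e : E => Finset.Icc 1 (M e)).filter
    fun p => (∀ e, p e % D = z e % D) ∧ InCone G p ∧ InLat G p

lemma mem_weights (G : MGraph V E) (D : ℕ) (z M : E → ℕ) (p : E → ℕ) :
    p ∈ weights G D z M ↔ (∀ e, 1 ≤ p e ∧ p e ≤ M e) ∧ (∀ e, p e % D = z e % D) ∧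
      InCone G p ∧ InLat G p := by
  classical
  unfold weights
  simp only [Finset.mem_filter, Fintype.mem_piFinset, Finset.mem_Icc]

lemma lat_const (G : MGraph V E) (v : E × Bool → V)
    (hv : ∀ e, G.ends e = s(v (e, false), v (e, true))) (p : E → ℕ) (h : InLat G p) : Const v p := by
  intro e f hef
  have := tc_of_lat G v hv hef _ h
  exact_mod_cast this

open Classical in
/-- the main theorem: lower bound for the number of the weightings with a circuit cover -/
theorem ratio (G : MGraph V E) {D : ℕ} (hD : 0 < D) (hD2 : Even D) (z M : E → ℕ) (m l : ℕ)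
    (hl : 1200000000 * bd (Fintype.card V) (Fintype.card E) ≤ D * l) (hM : ∀ e, m ≤ M e)
    (hm : D * (l + 2) < m) :
    ((m - D * (l + 2) : ℝ) / (m + 2 * D)) ^ Fintype.card E * (weights G D z M).card ≤
      ((weights G D z M).filter (fun p => InIntCone G p)).card := by
  rcases (weights G D z M).eq_empty_or_nonempty with hW | ⟨p₀, hp₀⟩
  · rw [hW]
    simp
  obtain ⟨v, hv⟩ := G.exists_halves
  obtain ⟨hp1, hp2, hp3, hp4⟩ := (mem_weights G D z M p₀).1 hp₀
  have hbr := bridgeless_of_lat G p₀ hp4 (fun e => (hp1 e).1)
  have hmr : (D : ℝ) * (l + 2) < m := by exact_mod_cast hm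
  have hl0 : (0 : ℝ) ≤ l := Nat.cast_nonneg l
  have hD0 : (0 : ℝ) < D := by exact_mod_cast hD
  have hMr : ∀ e, (m : ℝ) ≤ M e := fun e => by exact_mod_cast hM e
  have hDl : (0 : ℝ) ≤ D * l := by positivity
  have hs : (0 : ℝ) < m + 2 * D := by linarith
  have ht : (0 : ℝ) < m - D * (l + 2) := by linarith
  obtain ⟨D', hD'⟩ := hD2
  have key := count_ratio hD (weights G D z M) ((weights G D z M).filter (fun p => InIntCone G p))
    (fun p c => (p (Quotient.out c : E) : ℝ) + D)
    (fun p c => (p (Quotient.out c : E) : ℝ) - 2 * D - D * l)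
    (Reg v (fun e => (M e : ℝ) + 2 * D)) (Reg v (fun e => (M e : ℝ) - D * (l + 2))) hs ht
    (reg_smul v hs ht (by
      intro e
      have h1 := hMr e
      have h2 : ((m : ℝ) + 2 * D) * (M e - D * (l + 2)) - (m - D * (l + 2)) * (M e + 2 * D) =
          (M e - m) * (D * (l + 4)) := by ring
      have h3 : 0 ≤ ((M e : ℝ) - m) * (D * (l + 4)) := mul_nonneg (by linarith) (by positivity)
      linarith)) (by
      intro p hp p' hp' hne
      obtain ⟨a1, a2, a3, a4⟩ := (mem_weights G D z M p).1 hp
      obtain ⟨b1, b2, b3, b4⟩ := (mem_weights G D z M p').1 hp'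
      obtain ⟨e, he⟩ := Function.ne_iff.1 hne
      refine ⟨Quotient.mk (tcs v) e, ?_⟩
      have h1 := lat_const G v hv p a4 _ _ (rep_tc v e)
      have h2 := lat_const G v hv p' b4 _ _ (rep_tc v e)
      rw [h1, h2]
      have h3 : p e % D = p' e % D := (a2 e).trans (b2 e).symm
      have h4 : (D : ℤ) ∣ (p e : ℤ) - p' e := by
        have h3' : (p' e : ℤ) % D = (p e : ℤ) % D := by exact_mod_cast h3.symm
        exact Int.ModEq.dvd h3'
      have h5 : (D : ℤ) ≤ |(p e : ℤ) - p' e| := by
        apply Int.le_of_dvd (abs_pos.2 (sub_ne_zero.2 (by exact_mod_cast he)))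
        exact (dvd_abs _ _).2 h4
      have h6 : (D : ℝ) ≤ |(p e : ℝ) - p' e| := by exact_mod_cast h5
      have h7 : (p e : ℝ) + D - ((p' e : ℝ) + D) = (p e : ℝ) - p' e := by ring
      rw [h7]
      exact h6) (by
      intro p hp y hy
      obtain ⟨a1, a2, a3, a4⟩ := (mem_weights G D z M p).1 hp
      have hc := lat_const G v hv p a4
      have hy1 : ∀ e : E, (p e : ℝ) + D ≤ y (Quotient.mk (tcs v) e) ∧
          y (Quotient.mk (tcs v) e) < (p e : ℝ) + 2 * D := by
        intro e
        have h1 := hy (Quotient.mk (tcs v) e) (Set.mem_univ _)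
        rw [Set.mem_Ico] at h1
        dsimp only at h1
        rw [hc _ _ (rep_tc v e)] at h1
        exact ⟨h1.1, by linarith [h1.2]⟩
      refine ⟨?_, ?_, ?_⟩
      · intro c
        obtain ⟨e, rfl⟩ := Quotient.mk_surjective c
        have h1 := hy1 e
        have h3 : (0 : ℝ) ≤ p e := Nat.cast_nonneg _
        linarith [h1.1]
      · intro e
        have h1 := hy1 e
        have h2 : (p e : ℝ) ≤ M e := by exact_mod_cast (a1 e).2
        linarith [h1.2]
      · have h1 : CutC v (fun e => (p e : ℝ)) := cut_of_rcone G v hv _ a3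
        have h2 := cut_shift G hbr v hv (fun e => (p e : ℝ))
          (fun e => y (Quotient.mk (tcs v) e) - p e) (α := D) (β := 2 * D) hD0.le le_rfl
          h1 (by
            intro e f hef
            have h3 : y (Quotient.mk (tcs v) e) = y (Quotient.mk (tcs v) f) :=
              mk_const v y e f hef
            show y (Quotient.mk (tcs v) e) - p e = y (Quotient.mk (tcs v) f) - p f
            rw [h3, hc e f hef]) (fun e => by linarith [(hy1 e).1]) (fun e => by linarith [(hy1 e).2])
        have h3 : (fun e => (p e : ℝ) + (y (Quotient.mk (tcs v) e) - p e)) =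
            fun e => y (Quotient.mk (tcs v) e) := by
          ext e
          ring
        rw [h3] at h2
        exact h2) (by
      intro y hy
      obtain ⟨hy0, hy1, hy2⟩ := hy
      obtain ⟨k, hk⟩ : ∃ k : Cls v → ℤ, k = fun c => (p₀ (Quotient.out c : E) : ℤ) +
        D * ⌊(y c - p₀ (Quotient.out c : E)) / D⌋ := ⟨_, rfl⟩
      have hk1 : ∀ c, (k c : ℝ) ≤ y c ∧ y c < k c + D := by
        intro c
        have h1 := Int.floor_le ((y c - p₀ (Quotient.out c : E)) / D)
        have h2 := Int.lt_floor_add_one ((y c - p₀ (Quotient.out c : E)) / D)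
        rw [le_div_iff₀ hD0] at h1
        rw [div_lt_iff₀ hD0] at h2
        rw [hk]
        push_cast
        constructor <;> linarith
      have hk2 : ∀ c, -(D : ℤ) < k c := by
        intro c
        have h1 := (hk1 c).2
        have h2 := hy0 c
        have h3 : -(D : ℝ) < k c := by linarith
        exact_mod_cast h3
      obtain ⟨p, hp⟩ : ∃ p : E → ℕ,
        p = fun e => (k (Quotient.mk (tcs v) e) + 2 * D + D * l).toNat := ⟨_, rfl⟩
      have hpe : ∀ e, (p e : ℤ) = k (Quotient.mk (tcs v) e) + 2 * D + D * l := by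
        intro e
        rw [hp]
        apply Int.toNat_of_nonneg
        have := hk2 (Quotient.mk (tcs v) e)
        have h1 : (0 : ℤ) ≤ D * l := by positivity
        omega
      have hper : ∀ e, (p e : ℝ) = k (Quotient.mk (tcs v) e) + 2 * D + D * l := by
        intro e
        exact_mod_cast hpe e
      have hpc : Const v p := by
        intro e f hef
        have h3 : k (Quotient.mk (tcs v) e) = k (Quotient.mk (tcs v) f) := mk_const v k e f hef
        have h4 := hpe e
        have h5 := hpe f
        rw [h3] at h4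
        omega
      -- residues and the lattice
      have hp0c := lat_const G v hv p₀ hp4
      have hdiff : ∀ e, (p e : ℤ) = p₀ e +
          D * (⌊(y (Quotient.mk (tcs v) e) - p₀ e) / D⌋ + 2 + l) := by
        intro e
        rw [hpe e, hk]
        dsimp only
        rw [hp0c _ _ (rep_tc v e)]
        ring
      have hlat : InLat G p := by
        have h1 := lat_even G hbr v hv
          (fun e => D' * (⌊(y (Quotient.mk (tcs v) e) - p₀ e) / D⌋ + 2 + (l : ℤ))) (by
            intro e f hef
            have h3 : y (Quotient.mk (tcs v) e) = y (Quotient.mk (tcs v) f) :=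
              mk_const v y e f hef
            show (D' : ℤ) * (⌊(y (Quotient.mk (tcs v) e) - p₀ e) / D⌋ + 2 + (l : ℤ)) =
              D' * (⌊(y (Quotient.mk (tcs v) f) - p₀ f) / D⌋ + 2 + (l : ℤ))
            rw [h3, hp0c e f hef])
        have h2 := AddSubgroup.add_mem _ hp4 h1
        unfold InLat
        convert h2 using 1
        ext e
        rw [Pi.add_apply, hdiff e]
        have h3 : (D : ℤ) = D' + D' := by exact_mod_cast hD'
        have h4 : (D : ℤ) * (⌊(y (Quotient.mk (tcs v) e) - p₀ e) / D⌋ + 2 + l) =
            2 * (D' * (⌊(y (Quotient.mk (tcs v) e) - p₀ e) / D⌋ + 2 + l)) := by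
          rw [h3]
          ring
        rw [h4]
      -- the cone
      have hx : CutC v (fun e => (p e : ℝ) - D * l) := by
        have h2 := cut_shift G hbr v hv (fun e => y (Quotient.mk (tcs v) e))
          (fun e => 2 * D - (y (Quotient.mk (tcs v) e) - k (Quotient.mk (tcs v) e))) (α := D)
          (β := 2 * D) hD0.le le_rfl hy2 (by
            intro e f hef
            have h3 : y (Quotient.mk (tcs v) e) = y (Quotient.mk (tcs v) f) :=
              mk_const v y e f hef
            have h4 : k (Quotient.mk (tcs v) e) = k (Quotient.mk (tcs v) f) :=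
              mk_const v k e f hef
            show 2 * (D : ℝ) - (y (Quotient.mk (tcs v) e) - (k (Quotient.mk (tcs v) e) : ℝ)) =
              2 * (D : ℝ) - (y (Quotient.mk (tcs v) f) - (k (Quotient.mk (tcs v) f) : ℝ))
            rw [h3, h4])
          (fun e => by linarith [(hk1 (Quotient.mk (tcs v) e)).2])
          (fun e => by linarith [(hk1 (Quotient.mk (tcs v) e)).1])
        have h3 : (fun e => y (Quotient.mk (tcs v) e) +
            (2 * D - (y (Quotient.mk (tcs v) e) - (k (Quotient.mk (tcs v) e) : ℝ)))) =
            fun e => (p e : ℝ) - D * l := by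
          ext e
          rw [hper e]
          ring
        rw [h3] at h2
        exact h2
      have hx0 : ∀ e, (0 : ℝ) ≤ (p e : ℝ) - D * l := by
        intro e
        have h1 := hk2 (Quotient.mk (tcs v) e)
        have h2 : -(D : ℝ) < k (Quotient.mk (tcs v) e) := by exact_mod_cast h1
        rw [hper e]
        linarith
      have hcone : InCone G p := by
        have h2 := cut_shift G hbr v hv (fun e => (p e : ℝ) - D * l) (fun _ => (D : ℝ) * l)
          (α := D * l) (β := D * l) hDl (by linarith) hx (fun _ _ _ => rfl)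
          (fun _ => le_rfl) (fun _ => le_rfl)
        have h3 := rcone_of_cut G v hv (fun e => (p e : ℝ)) (fun e => Nat.cast_nonneg _) (by
          have h4 : (fun e => (p e : ℝ) - D * l + D * l) = fun e => (p e : ℝ) := by
            ext e
            ring
          rw [h4] at h2
          exact h2)
        exact h3
      -- the cover
      have hcov : InIntCone G p := by
        by_cases hE : IsEmpty E
        · exact ⟨0, by simp, fun e => (hE.false e).elim⟩
        rw [not_isEmpty_iff] at hE
        obtain ⟨e0⟩ := hE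
        have hV : 1 ≤ Fintype.card V := Fintype.card_pos_iff.2 ⟨v (e0, false)⟩
        have hb := one_le_bd (Fintype.card V) (Fintype.card E) hV
        obtain ⟨w, hw0, hw1, hw2⟩ := rcone_of_cut G v hv (fun e => (p e : ℝ) - D * l) hx0 hx
        refine cover_len G p hlat (Fintype.card V) (fun _ => D * l) w hw0 (fun C hC => ?_)
          (fun e => ?_) (Or.inr ⟨hV, fun e f => by linarith⟩)
        · have h1 : G.IsCircuit C := by
            by_contra h
            exact hC (hw1 C h)
          exact ⟨h1, card_circuit_le G C h1⟩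
        · have h1 : (p e : ℝ) - D * l = ∑ C : Finset E, w C * (if e ∈ C then 1 else 0) := hw2 e
          have h2 : ∑ C : Finset E, w C * (if e ∈ C then 1 else 0) =
              ∑ C : Finset E, (if e ∈ C then w C else 0) := by
            apply Finset.sum_congr rfl
            intro C _
            split_ifs <;> ring
          rw [h2] at h1
          linarith
      rw [Set.mem_iUnion₂]
      refine ⟨p, ?_, ?_⟩
      · rw [Finset.mem_filter, mem_weights]
        refine ⟨⟨fun e => ?_, fun e => ?_, hcone, hlat⟩, hcov⟩
        · have h1 := hpe e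
          have h2 := hk2 (Quotient.mk (tcs v) e)
          have h3 := (hk1 (Quotient.mk (tcs v) e)).1
          have h4 := hy1 e
          have h5 : (p e : ℝ) ≤ M e := by
            rw [hper e]
            linarith
          have h6 : p e ≤ M e := by exact_mod_cast h5
          have h7 : (0 : ℤ) ≤ D * l := by positivity
          omega
        · have h1 := hdiff e
          have h2 := hp2 e
          rw [← h2]
          have h3 : (p e : ℤ) % D = (p₀ e : ℤ) % D := by
            rw [h1, Int.add_mul_emod_self_left]
          exact_mod_cast h3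
      · intro c _
        obtain ⟨e, rfl⟩ := Quotient.mk_surjective c
        rw [Set.mem_Ico]
        dsimp only
        have h1 := hk1 (Quotient.mk (tcs v) e)
        rw [hpc _ _ (rep_tc v e), hper e]
        constructor <;> linarith [h1.1, h1.2])
  refine le_trans ?_ key
  apply mul_le_mul_of_nonneg_right _ (Nat.cast_nonneg _)
  apply pow_le_pow_of_le_one (by positivity) _ (card_cls v)
  rw [div_le_one hs]
  linarith

end Pool.Agent.J4.H48.AW
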